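import Pool.Agent.Helper47.BSD.Galois

/-!
# Selmer groups of Artin twists of superelliptic Jacobians

Let `K' / K` be a finite extension of fields of characteristic `p > 0` of degree prime to the prime
`ℓ`, with automorphism group `G`, and let `C` be the curve `y ^ ℓ = ∏ i, (x - e i) ^ a i` over `K`.
An element `ε` of `ℤ[G]` whose sums over the cosets `D_w g` of the decomposition groups of the places
`w` of bad reduction are divisible by `ℓ` annihilates the `(1 - ζ)`-Selmer group of the Jacobian of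
`C` over `K'`.
-/

set_option autoImplicit false

namespace Pool.Agent.Helper54.Archive.ArtinTwists

open Module Pool.Agent.Helper47.BSD Classical

theorem result (p ℓ : ℕ) (hp : p.Prime) (hℓ : ℓ.Prime) (K K' : Type) [Field K] [Field K']
    [CharP K p] [Algebra K K'] [FiniteDimensional K K'] (hn : ¬ ℓ ∣ finrank K K')
    (ι : Type) [Fintype ι] (a : ι → ℕ) (ha : ∀ i, ¬ ℓ ∣ a i) (hs : ¬ ℓ ∣ ∑ i, a i) (e : ι → K)
    (hH : ∀ z : K'ˣ, (∀ w : AbsoluteValue K' ℝ, w.IsNontrivial → ∃ x : K'ˣ, w z = w x ^ ℓ) →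
      ∃ (c : Kˣ) (x : K'ˣ), (z : K') = algebraMap K K' c * x ^ ℓ)
    (ε : (K' ≃ₐ[K] K') → ℤ) (hε0 : (ℓ : ℤ) ∣ ∑ g, ε g)
    (hε : ∀ w : AbsoluteValue K' ℝ, w.IsNontrivial →
      ¬ IsGood ℓ e (w.comp (f := algebraMap K K') (algebraMap K K').injective) →
        ∀ g : K' ≃ₐ[K] K', (ℓ : ℤ) ∣
          ∑ h ∈ Finset.univ.filter fun h : K' ≃ₐ[K] K' => ∀ z, w (h z) = w z, ε (h * g)) :
    ∀ d ∈ selmerSet ℓ a fun i => algebraMap K K' (e i),
      ∃ x : ι → K'ˣ, ∀ i, ∏ g : K' ≃ₐ[K] K', g (d i : K') ^ ε g = x i ^ ℓ := by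
  intro d hd
  have key : ∀ i, ∃ x : K'ˣ, ringAct (K := K) ε (d i) = x ^ ℓ := by
    intro i
    obtain ⟨c, x, hcx⟩ := ringAct_selmer hℓ ha hs p hp ε hε hH hd i
    -- the norm of `ε d`
    obtain ⟨m, hm⟩ := hε0
    have hN : Units.map (Algebra.norm K : K' →* K) (ringAct (K := K) ε (d i)) =
        (Units.map (Algebra.norm K : K' →* K) (d i) ^ m) ^ ℓ := by
      unfold ringAct
      rw [map_prod]
      have h1 : ∀ g : K' ≃ₐ[K] K', Units.map (Algebra.norm K : K' →* K)
          (Units.map (g : K' →* K') (d i) ^ ε g) =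
          Units.map (Algebra.norm K : K' →* K) (d i) ^ ε g := by
        intro g
        rw [map_zpow]
        congr 1
        ext
        exact Algebra.norm_eq_of_algEquiv g (d i : K')
      rw [Finset.prod_congr rfl fun g _ => h1 g, prod_zpow_group, hm, mul_comm, zpow_mul,
        zpow_natCast]
    have hc : c ^ finrank K K' =
        (Units.map (Algebra.norm K : K' →* K) (d i) ^ m *
          (Units.map (Algebra.norm K : K' →* K) x)⁻¹) ^ ℓ := by
      rw [hcx] at hN
      have h3 : Units.map (Algebra.norm K : K' →* K)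
          (Units.map (algebraMap K K' : K →* K') c * x ^ ℓ) =
          c ^ finrank K K' * Units.map (Algebra.norm K : K' →* K) x ^ ℓ := by
        ext
        simp [Algebra.norm_algebraMap]
      rw [h3] at hN
      rw [mul_pow, ← hN, inv_pow, mul_inv_cancel_right]
    obtain ⟨y, hy⟩ := exists_pow_of_coprime ((Nat.Prime.coprime_iff_not_dvd hℓ).2 hn).symm hc
    exact ⟨Units.map (algebraMap K K' : K →* K') y * x, by rw [hcx, hy, map_pow, mul_pow]⟩
  choose x hx using key
  refine ⟨x, fun i => ?_⟩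
  have h2 := congrArg (fun u : K'ˣ => (u : K')) (hx i)
  simp only [ringAct, Units.coe_prod, Units.val_zpow_eq_zpow_val, Units.val_pow_eq_pow_val] at h2
  exact h2

end Pool.Agent.Helper54.Archive.ArtinTwists
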