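import Pool.Agent.Helper47.BSD.Main

/-!
# Invariance of the Selmer group of a superelliptic Jacobian under base change

Let `K' / K` be a finite separable extension of fields of characteristic `p > 0` of degree prime to
the prime `ℓ`, and let `C` be the curve `y ^ ℓ = ∏ i, (x - e i) ^ a i` over `K`.  If every place of
bad reduction has exactly one extension to `K'` and every element of `K'` with divisor divisible by
`ℓ` lies in `K * K' ^ ℓ`, then the `(1 - ζ)`-Selmer groups of the Jacobian of `C` over `K` and over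
`K'` coincide, and the norm-trivial part over `K'` is zero.
-/

set_option autoImplicit false

namespace Pool.Agent.Results.MP_1d384c_nt.BaseChange

open Module Pool.Agent.Helper47.BSD

theorem result (p ℓ : ℕ) (hp : p.Prime) (hℓ : ℓ.Prime) (K K' : Type) [Field K] [Field K']
    [CharP K p] [Algebra K K'] [FiniteDimensional K K'] [Algebra.IsSeparable K K']
    (hn : ¬ ℓ ∣ finrank K K') (ι : Type) [Fintype ι] (a : ι → ℕ) (ha : ∀ i, ¬ ℓ ∣ a i)
    (hs : ¬ ℓ ∣ ∑ i, a i) (e : ι → K)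
    (hU : ∀ v : AbsoluteValue K ℝ, v.IsNontrivial → ¬ IsGood ℓ e v →
      ∀ w₁ w₂ : AbsoluteValue K' ℝ, (∀ c, w₁ (algebraMap K K' c) = v c) →
        (∀ c, w₂ (algebraMap K K' c) = v c) → w₁ = w₂)
    (hH : ∀ z : K'ˣ, (∀ w : AbsoluteValue K' ℝ, w.IsNontrivial → ∃ x : K'ˣ, w z = w x ^ ℓ) →
      ∃ (c : Kˣ) (x : K'ˣ), (z : K') = algebraMap K K' c * x ^ ℓ) :
    (∀ d : ι → Kˣ, (∃ x, mapUnits (algebraMap K K') d = x ^ ℓ) → ∃ y, d = y ^ ℓ) ∧
    (∀ d : ι → Kˣ, d ∈ descentGroup ℓ a e ↔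
      mapUnits (algebraMap K K') d ∈ descentGroup ℓ a fun i => algebraMap K K' (e i)) ∧
    (∀ d : ι → Kˣ, d ∈ selmerSet ℓ a e ↔
      mapUnits (algebraMap K K') d ∈ selmerSet ℓ a fun i => algebraMap K K' (e i)) ∧
    (∀ d' ∈ descentGroup ℓ a fun i => algebraMap K K' (e i),
      d' ∈ selmerSet ℓ a fun i => algebraMap K K' (e i)) ∧
    (∀ d' ∈ selmerSet ℓ a fun i => algebraMap K K' (e i),
      ∃ (d : ι → Kˣ) (x : ι → K'ˣ), d' = mapUnits (algebraMap K K') d * x ^ ℓ) ∧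
    (∀ d' ∈ selmerSet ℓ a fun i => algebraMap K K' (e i),
      (∀ i, ∃ c : Kˣ, Algebra.norm K (d' i : K') = c ^ ℓ) → ∃ x, d' = x ^ ℓ) := by
  have hai : ∀ i, a i ≠ 0 := fun i h => ha i (h ▸ dvd_zero _)
  refine ⟨fun d ⟨x, hx⟩ => pow_of_map_pow hℓ hn hx,
    fun d => ⟨fun h => mapUnits_mem hai _ h, fun h => mem_of_map_mem hℓ hn h⟩,
    fun d => ⟨fun h => selmer_map hai h, fun h => selmer_descend hℓ hai p hp hn h⟩,
    fun d' h => descentGroup_le_selmer hai h,
    fun d' h => selmer_lift hℓ ha hs p hp hn hU hH h, ?_⟩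
  intro d' hd' hN
  obtain ⟨d, x, hdx⟩ := selmer_lift hℓ ha hs p hp hn hU hH hd'
  choose c hc using hN
  -- the norm of `d'`
  have h1 : d ^ finrank K K' =
      (c * (fun i => Units.map (Algebra.norm K : K' →* K) (x i))⁻¹) ^ ℓ := by
    funext i
    have h2 : Units.map (Algebra.norm K : K' →* K) (d' i) =
        d i ^ finrank K K' * (Units.map (Algebra.norm K : K' →* K) (x i)) ^ ℓ := by
      rw [hdx]
      ext
      simp [mapUnits, Algebra.norm_algebraMap]
    have h3 : Units.map (Algebra.norm K : K' →* K) (d' i) = c i ^ ℓ := by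
      ext
      rw [Units.coe_map, Units.val_pow_eq_pow_val]
      exact hc i
    rw [h3] at h2
    simp only [Pi.pow_apply, Pi.mul_apply, Pi.inv_apply, mul_pow, inv_pow]
    rw [h2, mul_inv_cancel_right]
  have h4 : ∃ y, d = y ^ ℓ := by
    refine pow_of_map_pow (K' := K') hℓ hn
      (x := mapUnits (algebraMap K K') (d ^ (finrank K K').gcdB ℓ *
        (c * (fun i => Units.map (Algebra.norm K : K' →* K) (x i))⁻¹) ^ (finrank K K').gcdA ℓ)) ?_
    rw [← mapUnits_pow]
    congr 1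
    have hbez : (1 : ℤ) =
        (finrank K K' : ℤ) * (finrank K K').gcdA ℓ + ℓ * (finrank K K').gcdB ℓ := by
      have := Nat.gcd_eq_gcd_ab (finrank K K') ℓ
      rw [((Nat.Prime.coprime_iff_not_dvd hℓ).2 hn).symm] at this
      exact_mod_cast this
    rw [mul_pow, ← zpow_natCast _ ℓ, ← zpow_mul,
      ← zpow_natCast ((c * (fun i => Units.map (Algebra.norm K : K' →* K) (x i))⁻¹) ^ _) ℓ,
      ← zpow_mul, mul_comm ((finrank K K').gcdA ℓ) (ℓ : ℤ), zpow_mul _ (ℓ : ℤ),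
      zpow_natCast _ ℓ, ← h1, ← zpow_natCast d (finrank K K'), ← zpow_mul, ← zpow_add,
      mul_comm ((finrank K K').gcdB ℓ) (ℓ : ℤ), add_comm, ← hbez, zpow_one]
  obtain ⟨y, hy⟩ := h4
  refine ⟨mapUnits (algebraMap K K') y * x, ?_⟩
  rw [hdx, hy, mapUnits_pow, mul_pow]

end Pool.Agent.Results.MP_1d384c_nt.BaseChange
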